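import Pool.Agent.K7.H23.PT.Stm2

/-!
Job RD of project PT (helper23): from the cubic polynomials `X (X² + a X + b)` to all cubic
polynomials with exactly one rational root.
-/

open Polynomial

set_option autoImplicit false

namespace Pool.Agent.K7.H90.RD

open Pool.Agent.K7.H23.AT Pool.Agent.K7.H23.PT

/-- finitely many exceptions are allowed -/
lemma dens0_large {A B : Set ℤ} (K : ℕ) (h : ∀ D ∈ A, (K : ℤ) ≤ |D| → D ∈ B) (hB : Dens0 B) :
    Dens0 A := by
  intro ε hε
  obtain ⟨N₀, h0⟩ := hB (ε / 2) (by positivity)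
  obtain ⟨N₁, h1⟩ := exists_nat_ge ((2 * (K : ℝ) + 1) * 2 / ε)
  refine ⟨max N₀ N₁, fun N hN => ?_⟩
  have hN0 : N₀ ≤ N := (le_max_left _ _).trans hN
  have hN1 : N₁ ≤ N := (le_max_right _ _).trans hN
  have hfinB : {D : ℤ | D ∈ B ∧ |D| ≤ (N : ℤ)}.Finite :=
    (Set.finite_Icc (-(N : ℤ)) N).subset fun D hD => abs_le.1 hD.2
  have hsub : {D : ℤ | D ∈ A ∧ |D| ≤ N} ⊆ (Finset.Icc (-(K : ℤ)) K : Set ℤ) ∪
      {D : ℤ | D ∈ B ∧ |D| ≤ (N : ℤ)} := by
    intro D hD
    by_cases hcD : (K : ℤ) ≤ |D|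
    · exact Or.inr ⟨h D hD.1 hcD, hD.2⟩
    · left
      rw [Finset.coe_Icc, Set.mem_Icc, ← abs_le]
      exact (not_le.1 hcD).le
  have h3 := Set.ncard_le_ncard hsub ((Finset.finite_toSet _).union hfinB)
  have h4 := Set.ncard_union_le (Finset.Icc (-(K : ℤ)) K : Set ℤ)
    {D : ℤ | D ∈ B ∧ |D| ≤ (N : ℤ)}
  have h5 : (Finset.Icc (-(K : ℤ)) K : Set ℤ).ncard = 2 * K + 1 := by
    rw [Set.ncard_coe_finset, Int.card_Icc]
    omega
  rw [h5] at h4
  have h6 : (Set.ncard {D : ℤ | D ∈ A ∧ |D| ≤ N} : ℝ) ≤ (2 * K + 1) +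
      ({D : ℤ | D ∈ B ∧ |D| ≤ (N : ℤ)}.ncard : ℝ) := by
    have h7 := h3.trans h4
    have h8 : ((({D : ℤ | D ∈ A ∧ |D| ≤ N}).ncard : ℕ) : ℝ) ≤
      (((2 * K + 1) + ({D : ℤ | D ∈ B ∧ |D| ≤ (N : ℤ)}).ncard : ℕ) : ℝ) := by exact_mod_cast h7
    push_cast at h8
    exact h8
  have h9 := h0 N hN0
  have h10 : (2 * (K : ℝ) + 1) * 2 / ε ≤ N := h1.trans (by exact_mod_cast hN1)
  rw [div_le_iff₀ hε] at h10
  linarith

/-- the homogenisation of a monic cubic polynomial -/
lemma cubic_scale (F : ℤ[X]) (hF : F.Monic) (hd : F.natDegree = 3) (m x : ℤ) :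
    (F.scaleRoots m).eval x = x ^ 3 + F.coeff 2 * m * x ^ 2 + F.coeff 1 * m ^ 2 * x +
      F.coeff 0 * m ^ 3 := by
  have h3 : F.coeff 3 = 1 := by
    have := hF.coeff_natDegree
    rwa [hd] at this
  rw [eval_scale, hd, Finset.sum_range_succ, Finset.sum_range_succ, Finset.sum_range_succ,
    Finset.sum_range_succ, Finset.sum_range_zero, h3]
  norm_num
  ring

/-- the shifted polynomial -/
noncomputable def G (a b : ℤ) : ℤ[X] := X * (X ^ 2 + C a * X + C b)

lemma G_eq (a b : ℤ) : G a b = X ^ 3 + C a * X ^ 2 + C b * X := by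
  unfold G; ring

lemma G_natDegree (a b : ℤ) : (G a b).natDegree = 3 := by
  rw [G_eq]; compute_degree!

lemma G_monic (a b : ℤ) : (G a b).Monic := by
  rw [G_eq]; monicity!

lemma G_scale (a b m x : ℤ) : ((G a b).scaleRoots m).eval x =
    x ^ 3 + a * m * x ^ 2 + b * m ^ 2 * x := by
  rw [cubic_scale _ (G_monic a b) (G_natDegree a b)]
  have h2 : (G a b).coeff 2 = a := by
    rw [G_eq]; simp only [coeff_add, coeff_C_mul, coeff_X_pow, coeff_X]; norm_num
  have h1 : (G a b).coeff 1 = b := by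
    rw [G_eq]; simp only [coeff_add, coeff_C_mul, coeff_X_pow, coeff_X]; norm_num
  have h0 : (G a b).coeff 0 = 0 := by
    rw [G_eq]; simp only [coeff_add, coeff_C_mul, coeff_X_pow, coeff_X]; norm_num
  rw [h2, h1, h0]; ring

lemma shift_scale (F : ℤ[X]) (hF : F.Monic) (hd : F.natDegree = 3) (e : ℤ) (he : F.eval e = 0)
    (m x : ℤ) : (F.scaleRoots m).eval x =
      ((G (3 * e + F.coeff 2) (3 * e ^ 2 + 2 * F.coeff 2 * e + F.coeff 1)).scaleRoots m).eval
        (x - e * m) := by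
  rw [cubic_scale F hF hd, G_scale]
  have h1 := cubic_scale F hF hd 1 e
  rw [scaleRoots_one, he] at h1
  have h0 : F.coeff 0 = -(e ^ 3 + F.coeff 2 * e ^ 2 + F.coeff 1 * e) := by linarith
  rw [h0]; ring

lemma exc_shift (F : ℤ[X]) (hF : F.Monic) (hd : F.natDegree = 3) (e : ℤ) (he : F.eval e = 0)
    (M : ℕ) (D : ℤ) (hD : D ∈ ExcG F (M + 2)) (hbig : ((e.natAbs + 1 : ℕ) : ℤ) ≤ |D|) :
    D ∈ ExcG (G (3 * e + F.coeff 2) (3 * e ^ 2 + 2 * F.coeff 2 * e + F.coeff 1)) M := by
  obtain ⟨hD0, g, m, x, y, h1, h2, h3, h4, h5⟩ := hD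
  refine ⟨hD0, g, m, x - e * m, y, h1, h2, ?_, ?_, ?_⟩
  · obtain ⟨u, v, huv⟩ := h3
    exact ⟨u, v + u * e, by linear_combination huv⟩
  · rw [h4, shift_scale F hF hd e he]
  · push_cast at hbig
    have hDpos : 1 ≤ |D| := Int.one_le_abs hD0
    have hg0 : g ≠ 0 := by
      rintro rfl
      exact hD0 (by rw [h1, zero_mul])
    have hmD : |m| ≤ |D| := by
      rw [h1, abs_mul]
      have : 1 ≤ |g| := Int.one_le_abs hg0
      have := abs_nonneg m
      nlinarith
    have h6 : |x| ≤ |x - e * m| + |e| * |m| := by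
      have := abs_add_le (x - e * m) (e * m)
      rw [abs_mul] at this
      simpa using this
    have h7 : |e| * |m| ≤ |e| * |D| := mul_le_mul_of_nonneg_left hmD (abs_nonneg e)
    have hP : 1 ≤ |D| ^ M := one_le_pow₀ hDpos
    have h8 : |D| ^ (M + 2) = |D| ^ M * |D| * |D| := by ring
    have he0 : 0 ≤ |e| := abs_nonneg e
    have h9 : |D| ^ M + |e| * |D| ≤ |D| ^ (M + 2) := by
      rw [h8]
      have h10 : |D| ^ M * |D| * (|e| + 1) ≤ |D| ^ M * |D| * |D| :=
        mul_le_mul_of_nonneg_left hbig (by positivity)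
      have h11 : |D| ≤ |D| ^ M * |D| := le_mul_of_one_le_left (by omega) hP
      have h12 : |D| ^ M ≤ |D| ^ M * |D| := le_mul_of_one_le_right (by omega) hDpos
      have h13 : |e| * |D| ≤ |e| * (|D| ^ M * |D|) := mul_le_mul_of_nonneg_left h11 he0
      nlinarith
    linarith

/-- the theorem for the normalised polynomial -/
theorem core (hX : StX1) : ∃ M : ℕ, ∀ f : ℤ[X], f.natDegree = 3 →
    (f.map (Int.castRingHom ℚ)).Separable → (f.map (Int.castRingHom ℚ)).roots.card = 1 →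
    Dens0 (ExcG (integralNormalization f) M) := by
  obtain ⟨M, hM⟩ := hX
  refine ⟨M + 2, fun f hdeg hsep hroots => ?_⟩
  have hf0 : f ≠ 0 := by
    rintro rfl
    rw [natDegree_zero] at hdeg
    omega
  set F : ℤ[X] := integralNormalization f with hF
  have hmon : F.Monic := monic_integralNormalization hf0
  have hFd : F.natDegree = 3 := by rw [hF, natDegree_integralNormalization, hdeg]
  have hFsep : (F.map (Int.castRingHom ℚ)).Separable := norm_sep f hf0 hsep
  have hlc : (f.leadingCoeff : ℚ) ≠ 0 := by simpa using hf0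
  have hfq0 : f.map (Int.castRingHom ℚ) ≠ 0 := by
    rw [Polynomial.map_ne_zero_iff (Int.castRingHom ℚ).injective_int]
    exact hf0
  -- roots of `F` and of `f`
  have hroot : ∀ x : ℚ, (F.map (Int.castRingHom ℚ)).eval ((f.leadingCoeff : ℚ) * x) =
      (f.leadingCoeff : ℚ) ^ 2 * (f.map (Int.castRingHom ℚ)).eval x := by
    intro x
    have h1 := integralNormalization_eval₂_leadingCoeff_mul (p := f) (by omega)
      (Int.castRingHom ℚ) x
    rw [hdeg] at h1
    rw [eval_map, eval_map]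
    exact h1
  obtain ⟨ρ, hρ⟩ := Multiset.card_eq_one.mp hroots
  have hρ0 : (f.map (Int.castRingHom ℚ)).eval ρ = 0 := by
    have : ρ ∈ (f.map (Int.castRingHom ℚ)).roots := by rw [hρ]; simp
    exact (mem_roots hfq0).1 this
  have huniq : ∀ x : ℚ, (F.map (Int.castRingHom ℚ)).eval x = 0 → x = (f.leadingCoeff : ℚ) * ρ := by
    intro x hx
    have h1 := hroot (x / f.leadingCoeff)
    rw [mul_div_cancel₀ _ hlc, hx] at h1
    have h2 : (f.map (Int.castRingHom ℚ)).eval (x / f.leadingCoeff) = 0 := by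
      rcases mul_eq_zero.mp h1.symm with h3 | h3
      · exact absurd h3 (pow_ne_zero _ hlc)
      · exact h3
    have h3 : x / f.leadingCoeff ∈ (f.map (Int.castRingHom ℚ)).roots := (mem_roots hfq0).2 h2
    rw [hρ, Multiset.mem_singleton] at h3
    rw [← h3]
    field_simp
  -- the integral root of `F`
  have hFρ : (F.map (Int.castRingHom ℚ)).eval ((f.leadingCoeff : ℚ) * ρ) = 0 := by
    rw [hroot, hρ0, mul_zero]
  obtain ⟨e, he, -⟩ := exists_integer_of_is_root_of_monic (A := ℤ) (K := ℚ) hmon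
    (r := (f.leadingCoeff : ℚ) * ρ) (by
      rw [eval_map] at hFρ
      rw [aeval_def]
      exact hFρ)
  have heQ : (f.leadingCoeff : ℚ) * ρ = (e : ℚ) := he
  have heF : F.eval e = 0 := by
    have h1 : ((F.eval e : ℤ) : ℚ) = 0 := by
      rw [heQ] at hFρ
      rw [← hFρ]
      have := eval_intCast_map (Int.castRingHom ℚ) F e
      rw [this]; rfl
    exact_mod_cast h1
  set a : ℤ := 3 * e + F.coeff 2 with ha
  set b : ℤ := 3 * e ^ 2 + 2 * F.coeff 2 * e + F.coeff 1 with hb
  -- evaluation of `F` over the rational numbers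
  have h3c : F.coeff 3 = 1 := by
    have := hmon.coeff_natDegree
    rwa [hFd] at this
  have hc0 : F.coeff 0 = -(e ^ 3 + F.coeff 2 * e ^ 2 + F.coeff 1 * e) := by
    have h1 := cubic_scale F hmon hFd 1 e
    rw [scaleRoots_one, heF] at h1
    linarith
  have hFform : F = X ^ 3 + C (F.coeff 2) * X ^ 2 + C (F.coeff 1) * X + C (F.coeff 0) := by
    conv_lhs => rw [F.as_sum_range_C_mul_X_pow, hFd]
    rw [Finset.sum_range_succ, Finset.sum_range_succ, Finset.sum_range_succ,
      Finset.sum_range_succ, Finset.sum_range_zero, h3c]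
    simp only [map_one, pow_zero, pow_one, mul_one, one_mul]
    ring
  have hevalQ : ∀ x : ℚ, (F.map (Int.castRingHom ℚ)).eval x =
      (x - e) * ((x - e) ^ 2 + a * (x - e) + b) := by
    intro x
    rw [hFform, hc0]
    simp only [Polynomial.map_add, Polynomial.map_mul, Polynomial.map_pow, map_X, Polynomial.map_C,
      eval_add, eval_mul, eval_pow, eval_X, eval_C, Int.coe_castRingHom]
    rw [ha, hb]
    push_cast
    ring
  have hb0 : b ≠ 0 := by
    intro hb0
    have h1 : aeval (e : ℚ) (F.map (Int.castRingHom ℚ)) = 0 := by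
      have := hevalQ e
      rw [sub_self, zero_mul] at this
      simpa [aeval_def, eval_map] using this
    have h2 := hFsep.aeval_derivative_ne_zero h1
    apply h2
    have h3 : (derivative (F.map (Int.castRingHom ℚ))).eval (e : ℚ) = b := by
      rw [hFform]
      simp only [Polynomial.map_add, Polynomial.map_mul, Polynomial.map_pow, map_X,
        Polynomial.map_C, derivative_add, derivative_mul, derivative_X_pow, derivative_C,
        derivative_X, eval_add, eval_mul, eval_pow, eval_X, eval_C, Int.coe_castRingHom,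
        zero_mul, mul_one, add_zero, zero_add]
      rw [hb]
      push_cast
      norm_num
      ring
    have h4 : aeval (e : ℚ) (derivative (F.map (Int.castRingHom ℚ))) =
        (derivative (F.map (Int.castRingHom ℚ))).eval (e : ℚ) := by
      simp [aeval_def]
    rw [h4, h3, hb0]
    norm_num
  have hns : ¬ IsSquare (a ^ 2 - 4 * b) := by
    rintro ⟨s, hs⟩
    have hsQ : (a : ℚ) ^ 2 - 4 * b = s * s := by exact_mod_cast hs
    have h1 : (F.map (Int.castRingHom ℚ)).eval ((-a + s) / 2 + e : ℚ) = 0 := by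
      rw [hevalQ]
      have : ((-a + s) / 2 + e - e : ℚ) ^ 2 + a * ((-a + s) / 2 + e - e : ℚ) + b = 0 := by
        linear_combination (-1 / 4) * hsQ
      rw [this, mul_zero]
    have h2 := huniq _ h1
    rw [heQ] at h2
    have h3 : (s : ℚ) = a := by linarith
    rw [h3] at hsQ
    have h4 : (b : ℚ) = 0 := by linarith
    exact hb0 (by exact_mod_cast h4)
  have hdens : Dens0 (ExcG (G a b) M) := hM a b hns
  exact dens0_large (e.natAbs + 1) (fun D hD hbig => exc_shift F hmon hFd e heF M D hD hbig) hdens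

/-- both families -/
theorem rd_both (hX : StX1) : ∃ M : ℕ, ∀ f : ℤ[X], f.natDegree = 3 →
    (f.map (Int.castRingHom ℚ)).Separable → (f.map (Int.castRingHom ℚ)).roots.card = 1 →
    Dens0 (Exc f M) ∧ Dens0 (Exc2 f M) := by
  obtain ⟨M, hM⟩ := core hX
  refine ⟨2 * M + 1, fun f hdeg hsep hroots => ?_⟩
  have hf0 : f ≠ 0 := by
    rintro rfl
    rw [natDegree_zero] at hdeg
    omega
  have h1 := hM f hdeg hsep hroots
  constructor
  · refine h1.mono (Set.Subset.trans ?_ (exc_sub f (by rw [hdeg]; decide) hf0 M))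
    intro D hD
    obtain ⟨hD0, x, y, h3, h4⟩ := hD
    exact ⟨hD0, x, y, h3, lt_of_le_of_lt (pow_le_pow_right₀ (Int.one_le_abs hD0) (by omega)) h4⟩
  · have hc : f.leadingCoeff ^ (f.natDegree + 1) ≠ 0 := pow_ne_zero _ (leadingCoeff_ne_zero.2 hf0)
    refine h1.scale hc ?_
    intro D hD hbig
    apply exc2_mem f (by omega) hf0 M D _ (by rwa [abs_pow] at hbig)
    obtain ⟨hD0, x, y, h3, h4⟩ := hD
    exact ⟨hD0, x, y, h3, lt_of_le_of_lt (pow_le_pow_right₀ (Int.one_le_abs hD0) (by omega)) h4⟩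

/-- **Job RD.** -/
theorem rd (hX : StX1) : StRD := by
  obtain ⟨M, hM⟩ := rd_both hX
  exact ⟨M, fun f hdeg hsep hroots => (hM f hdeg hsep hroots).1⟩

end Pool.Agent.K7.H90.RD
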